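import Pool.Agent.H346R2.L2.Prim
import Pool.Agent.H346R2.L2.Seg

/-!
Sup bound of the integrand on `[1,2]`.
-/

open Polynomial

namespace Pool.Agent.H346R2.L2

/-- bound on the `S`-line -/
noncomputable def rhoS : ℝ := 2128 / 10 ^ 33

/-- the base of the exponential decay -/
noncomputable def rho : ℝ := 9 * 4 ^ 10 * rhoS

lemma rho_pos : 0 < rho := by unfold rho rhoS; norm_num

lemma comb (p q D S : ℝ) (hD : 0 < D) (hpq : p < q) (h1 : p ≤ D * S) (h2 : D * S ≤ q) :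
    ∃ a b : ℝ, 0 ≤ a ∧ 0 ≤ b ∧ a + b = 1 ∧ p * a + q * b = D * S := by
  have hqp : 0 < q - p := by linarith
  refine ⟨(q - D * S) / (q - p), (D * S - p) / (q - p), div_nonneg (by linarith) hqp.le,
    div_nonneg (by linarith) hqp.le, ?_, ?_⟩
  · field_simp; ring
  · field_simp; ring

lemma S_bound (S : ℝ) (h0 : 0 ≤ S) (h1 : S ≤ 1) : S ^ 21 * (1 - S) ^ 12 ≤ rhoS * (9 - S) ^ 22 := by
  unfold rhoS
  rcases le_or_gt S (1 / 2) with hS | hS
  · obtain ⟨a, b, ha, hb, hab, he⟩ := comb 0 4 8 S (by norm_num) (by norm_num) (by linarith) (by linarith)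
    have key := seg0 a b ha hb
    have e1 : 4 * b = 8 * S := by linarith
    have e2 : 8 * a + 4 * b = 8 * (1 - S) := by linarith
    have e3 : 72 * a + 68 * b = 8 * (9 - S) := by linarith
    rw [e3, e2, e1, hab] at key
    generalize 1 - S = T at *
    generalize 9 - S = U at *
    have k1 : (10 : ℝ) ^ 33 * ((8 * S) ^ 21 * (8 * T) ^ 12) = 8 ^ 33 * (10 ^ 33 * (S ^ 21 * T ^ 12)) := by ring
    have k2 : 2128 * ((8 * U) ^ 22 * (8 * 1) ^ 11) = 8 ^ 33 * (2128 * U ^ 22) := by ring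
    rw [k1, k2] at key
    have k3 := le_of_mul_le_mul_left key (by norm_num)
    rw [div_mul_eq_mul_div, le_div_iff₀ (by norm_num)]
    linarith
  rcases le_or_gt S (5 / 8) with hS2 | hS2
  · obtain ⟨a, b, ha, hb, hab, he⟩ := comb 4 5 8 S (by norm_num) (by norm_num) (by linarith) (by linarith)
    have key := seg1 a b ha hb
    have e1 : 4 * a + 5 * b = 8 * S := by linarith
    have e2 : 4 * a + 3 * b = 8 * (1 - S) := by linarith
    have e3 : 68 * a + 67 * b = 8 * (9 - S) := by linarith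
    rw [e1, e2, e3, hab] at key
    generalize 1 - S = T at *
    generalize 9 - S = U at *
    have k1 : (10 : ℝ) ^ 33 * ((8 * S) ^ 21 * (8 * T) ^ 12) = 8 ^ 33 * (10 ^ 33 * (S ^ 21 * T ^ 12)) := by ring
    have k2 : 2128 * ((8 * U) ^ 22 * (8 * 1) ^ 11) = 8 ^ 33 * (2128 * U ^ 22) := by ring
    rw [k1, k2] at key
    have k3 := le_of_mul_le_mul_left key (by norm_num)
    rw [div_mul_eq_mul_div, le_div_iff₀ (by norm_num)]
    linarith
  rcases le_or_gt S (3 / 4) with hS3 | hS3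
  · obtain ⟨a, b, ha, hb, hab, he⟩ := comb 5 6 8 S (by norm_num) (by norm_num) (by linarith) (by linarith)
    have key := seg2 a b ha hb
    have e1 : 5 * a + 6 * b = 8 * S := by linarith
    have e2 : 3 * a + 2 * b = 8 * (1 - S) := by linarith
    have e3 : 67 * a + 66 * b = 8 * (9 - S) := by linarith
    rw [e1, e2, e3, hab] at key
    generalize 1 - S = T at *
    generalize 9 - S = U at *
    have k1 : (10 : ℝ) ^ 33 * ((8 * S) ^ 21 * (8 * T) ^ 12) = 8 ^ 33 * (10 ^ 33 * (S ^ 21 * T ^ 12)) := by ring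
    have k2 : 2128 * ((8 * U) ^ 22 * (8 * 1) ^ 11) = 8 ^ 33 * (2128 * U ^ 22) := by ring
    rw [k1, k2] at key
    have k3 := le_of_mul_le_mul_left key (by norm_num)
    rw [div_mul_eq_mul_div, le_div_iff₀ (by norm_num)]
    linarith
  · obtain ⟨a, b, ha, hb, hab, he⟩ := comb 6 8 8 S (by norm_num) (by norm_num) (by linarith) (by linarith)
    have key := seg3 a b ha hb
    have e1 : 6 * a + 8 * b = 8 * S := by linarith
    have e2 : 2 * a = 8 * (1 - S) := by linarith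
    have e3 : 66 * a + 64 * b = 8 * (9 - S) := by linarith
    rw [e1, e2, e3, hab] at key
    generalize 1 - S = T at *
    generalize 9 - S = U at *
    have k1 : (10 : ℝ) ^ 33 * ((8 * S) ^ 21 * (8 * T) ^ 12) = 8 ^ 33 * (10 ^ 33 * (S ^ 21 * T ^ 12)) := by ring
    have k2 : 2128 * ((8 * U) ^ 22 * (8 * 1) ^ 11) = 8 ^ 33 * (2128 * U ^ 22) := by ring
    rw [k1, k2] at key
    have k3 := le_of_mul_le_mul_left key (by norm_num)
    rw [div_mul_eq_mul_div, le_div_iff₀ (by norm_num)]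
    linarith

lemma num_eval (n : ℕ) (z : ℝ) : (Num ℝ n).eval (-z)
    = ((z - 1) ^ 42 * ((2 * z - 1) * (2 - z)) ^ 12) ^ n := by
  rw [Num]
  simp only [Polynomial.eval_add, Polynomial.eval_mul, Polynomial.eval_pow, Polynomial.eval_X,
        Polynomial.eval_one, Polynomial.eval_ofNat]
  have e1 : (1 + -z) ^ (42 * n) = ((z - 1) ^ 42) ^ n := by
    rw [pow_mul, show (1 + -z : ℝ) = -(z - 1) by ring, Even.neg_pow ⟨21, by norm_num⟩]
  have e2 : ((1 + 2 * -z) * (2 + -z)) ^ (12 * n) = (((2 * z - 1) * (2 - z)) ^ 12) ^ n := by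
    rw [pow_mul, show (1 + 2 * -z) * (2 + -z) = -((2 * z - 1) * (2 - z)) by ring,
      Even.neg_pow ⟨6, by norm_num⟩]
  rw [e1, e2, mul_pow ((z - 1) ^ 42)]

lemma Fi_bound (n : ℕ) (z : ℝ) (hz1 : 1 ≤ z) (hz2 : z ≤ 2) : ‖Fi n z‖ ≤ rho ^ n := by
  obtain ⟨t, ht⟩ : ∃ t, t = (z - 1) / (z + 1) := ⟨_, rfl⟩
  obtain ⟨S, hS⟩ : ∃ S, S = 9 * t ^ 2 := ⟨_, rfl⟩
  have hzp : 0 < z + 1 := by linarith
  have ht0 : 0 ≤ t := by rw [ht]; exact div_nonneg (by linarith) hzp.le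
  have ht1 : t ≤ 1 / 3 := by rw [ht, div_le_iff₀ hzp]; linarith
  have hS0 : 0 ≤ S := by rw [hS]; positivity
  have hS1 : S ≤ 1 := by rw [hS]; nlinarith
  have hb := S_bound S hS0 hS1
  have e1 : (z - 1) ^ 2 = S * (z + 1) ^ 2 / 9 := by rw [hS, ht]; field_simp
  have e2 : (2 * z - 1) * (2 - z) = (1 - S) * (z + 1) ^ 2 / 4 := by rw [hS, ht]; field_simp; ring
  have e3 : z = (9 - S) * (z + 1) ^ 2 / 36 := by rw [hS, ht]; field_simp; ring
  obtain ⟨W, hW⟩ : ∃ W, W = (z + 1) ^ 2 := ⟨_, rfl⟩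
  have hWpos : 0 < W := by rw [hW]; positivity
  have f1 : (z - 1) ^ 42 * ((2 * z - 1) * (2 - z)) ^ 12 = S ^ 21 * (1 - S) ^ 12 * (W ^ 33 / (9 ^ 21 * 4 ^ 12)) := by
    have : (z - 1) ^ 42 = ((z - 1) ^ 2) ^ 21 := by rw [← pow_mul]
    rw [this, e1, e2, ← hW]
    generalize 1 - S = T
    ring
  have f2 : (1 + z) ^ 22 * z ^ 22 = (9 - S) ^ 22 * (W ^ 33 / 36 ^ 22) := by
    have h1 : (1 + z) ^ 22 = W ^ 11 := by rw [hW, ← pow_mul, add_comm]
    have h2 : z ^ 22 = ((9 - S) * W / 36) ^ 22 := by rw [hW, ← e3]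
    rw [h1, h2]
    generalize 9 - S = T
    ring
  have hden : 0 < (1 + z) ^ 22 * z ^ 22 := by positivity
  have hnn : 0 ≤ (z - 1) ^ 42 * ((2 * z - 1) * (2 - z)) ^ 12 := by
    rw [f1]
    have : 0 ≤ 1 - S := by linarith
    positivity
  have hq : ((z - 1) ^ 42 * ((2 * z - 1) * (2 - z)) ^ 12) / ((1 + z) ^ 22 * z ^ 22) ≤ rho := by
    rw [div_le_iff₀ hden, f1, f2]
    have h36 : (36 : ℝ) ^ 22 = 9 * 4 ^ 10 * (9 ^ 21 * 4 ^ 12) := by norm_num
    have hWp : 0 < W ^ 33 := by positivity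
    calc S ^ 21 * (1 - S) ^ 12 * (W ^ 33 / (9 ^ 21 * 4 ^ 12))
        ≤ (rhoS * (9 - S) ^ 22) * (W ^ 33 / (9 ^ 21 * 4 ^ 12)) := by
          apply mul_le_mul_of_nonneg_right hb (by positivity)
      _ = rho * ((9 - S) ^ 22 * (W ^ 33 / 36 ^ 22)) := by
          rw [h36, rho]
          generalize (9 - S) ^ 22 = T
          generalize W ^ 33 = V
          generalize rhoS = r
          field_simp
  have hd : (1 + z) ^ (22 * n) * z ^ (22 * n + 1) = ((1 + z) ^ 22 * z ^ 22) ^ n * z := by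
    rw [mul_pow, ← pow_mul, ← pow_mul, pow_succ]; ring
  rw [Fi, num_eval, hd]
  generalize (z - 1) ^ 42 * ((2 * z - 1) * (2 - z)) ^ 12 = A at hq hnn ⊢
  generalize (1 + z) ^ 22 * z ^ 22 = B at hq hden ⊢
  have hz0 : 0 < z := by linarith
  rw [Real.norm_of_nonneg (by positivity), ← div_div, ← div_pow, div_le_iff₀ hz0]
  have hq2 : (A / B) ^ n ≤ rho ^ n := pow_le_pow_left₀ (by positivity) hq n
  calc (A / B) ^ n ≤ rho ^ n * 1 := by rw [mul_one]; exact hq2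
    _ ≤ rho ^ n * z := mul_le_mul_of_nonneg_left hz1 (pow_nonneg rho_pos.le n)

lemma prim_bound (n : ℕ) (hn : 0 < n) : |Prim n 2| ≤ rho ^ n := by
  have h1 : ‖Prim n 2 - Prim n 1‖ ≤ rho ^ n * ‖(2 : ℝ) - 1‖ := by
    apply Convex.norm_image_sub_le_of_norm_hasDerivWithin_le (f' := Fi n) (s := Set.Icc (1 : ℝ) 2)
    · intro x hx
      exact (prim_hasDeriv n hn x (by linarith [hx.1])).hasDerivWithinAt
    · intro x hx
      exact Fi_bound n x hx.1 hx.2
    · exact convex_Icc _ _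
    · simp
    · simp
  rw [prim_one, sub_zero, Real.norm_eq_abs] at h1
  refine h1.trans (le_of_eq ?_)
  norm_num

end Pool.Agent.H346R2.L2
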