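import Pool.Agent.H346R2.L2.Main
import Pool.Agent.H346R2.Pi.Bases

/-!
Digit form and Diophantine form of the restricted irrationality measure of `log 2`.
-/

open Filter

namespace Pool.Agent.H346R2.L2

lemma log29_le : Real.log 29 ≤ 27 / 8 := by
  have h1 : Real.log (29 ^ 8) ≤ 27 := by
    rw [Real.log_le_iff_le_exp (by norm_num)]
    have h := exp_one_pow_gt 27
    have h2 : ((27 : ℕ) : ℝ) = 27 := by norm_num
    rw [h2] at h
    refine le_trans ?_ h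
    norm_num
  rw [Real.log_pow] at h1
  push_cast at h1
  linarith

/-- Diophantine form. -/
theorem dioph : ∃ q0 : ℕ, ∀ q : ℕ, q0 ≤ q → ∀ α : ℕ, 2 ^ α ∣ q → q ≤ 29 ^ α →
    ∀ p : ℤ, (q : ℝ) ^ (-(3.35 : ℝ)) ≤ |Real.log 2 - p / q| := by
  obtain ⟨q0, hq0⟩ := eventually_atTop.mp measure
  refine ⟨max q0 1, fun q hq α hd hα p => ?_⟩
  have hq1 : 1 ≤ q := le_trans (le_max_right _ _) hq
  have hqq : q0 ≤ q := le_trans (le_max_left _ _) hq
  have hqR : (1 : ℝ) ≤ q := by exact_mod_cast hq1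
  have hqpos : (0 : ℝ) < q := by linarith
  have hlq : 0 ≤ Real.log q := Real.log_nonneg hqR
  have hl : 10 * Real.log q ≤ 33.779 * α := by
    have h1 : (q : ℝ) ≤ 29 ^ α := by exact_mod_cast hα
    have h2 := Real.log_le_log hqpos h1
    rw [Real.log_pow] at h2
    have h3 := log29_le
    have h4 : (0 : ℝ) ≤ α := Nat.cast_nonneg α
    nlinarith
  have key := hq0 q hqq α hd hl p
  have e1 : |Real.log 2 - p / q| = |q * Real.log 2 - p| / q := by
    rw [← abs_of_pos hqpos, ← abs_div, abs_of_pos hqpos]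
    congr 1
    field_simp
  rw [e1, le_div_iff₀ hqpos]
  refine le_trans ?_ key
  rw [Real.rpow_def_of_pos hqpos]
  nth_rewrite 2 [← Real.exp_log hqpos]
  rw [← Real.exp_add]
  apply Real.exp_le_exp.mpr
  nlinarith

/-- Digit form in base `b`, where `2^v` divides `b`. -/
theorem runs (b v : ℕ) (hb : 2 ≤ b) (hd : 2 ^ v ∣ b) :
    ∃ N0 : ℕ, ∀ N : ℕ, N0 ≤ N → ∀ s : ℕ, 1 ≤ s → b ^ (N + s) ≤ 29 ^ (v * N) →
    ∃ i : ℕ, N < i ∧ (i : ℝ) ≤ N + 2.35 * (N + s) ∧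
      ⌊Real.log 2 * (b : ℝ) ^ (i + s)⌋ % (b : ℤ) ≠ ⌊Real.log 2 * (b : ℝ) ^ i⌋ % (b : ℤ) := by
  have hbR : (2 : ℝ) ≤ b := by exact_mod_cast hb
  have hb0 : (0 : ℝ) < b := by linarith
  have hlb : 0 < Real.log b := Real.log_pos (by linarith)
  obtain ⟨q0, hq0⟩ := eventually_atTop.mp measure
  refine ⟨max q0 1000, fun N hN s hs hsN => ?_⟩
  have hN1 : 1000 ≤ N := le_trans (le_max_right _ _) hN
  have hNq : q0 ≤ N := le_trans (le_max_left _ _) hN
  have hNR : (1000 : ℝ) ≤ N := by exact_mod_cast hN1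
  have hsR : (1 : ℝ) ≤ s := by exact_mod_cast hs
  obtain ⟨l, hl⟩ : ∃ l, l = ⌈2.347 * ((N : ℝ) + s)⌉₊ := ⟨_, rfl⟩
  have hl1 : 2.347 * ((N : ℝ) + s) ≤ l := by rw [hl]; exact Nat.le_ceil _
  have hl2 : (l : ℝ) < 2.347 * ((N : ℝ) + s) + 1 := by
    rw [hl]; exact Nat.ceil_lt_add_one (by positivity)
  obtain ⟨q, hq⟩ : ∃ q : ℕ, q = b ^ N * (b ^ s - 1) := ⟨_, rfl⟩
  have hbs : 1 ≤ b ^ s := Nat.one_le_pow _ _ (by omega)
  have hbs1 : 1 ≤ b ^ s - 1 := by
    have : b ^ 1 ≤ b ^ s := Nat.pow_le_pow_right (by omega) hs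
    rw [pow_one] at this
    omega
  have hqN : N ≤ q := by
    have h1 : N < b ^ N := Nat.lt_pow_self (by omega)
    have h2 : b ^ N * 1 ≤ b ^ N * (b ^ s - 1) := Nat.mul_le_mul_left _ hbs1
    rw [hq]; omega
  have hqpos : (0 : ℝ) < q := by
    have : 0 < q := by omega
    exact_mod_cast this
  have hlogq : 10 * Real.log q ≤ 33.779 * ((v * N : ℕ) : ℝ) := by
    have h1 : (q : ℝ) ≤ 29 ^ (v * N) := by
      have h0 : q ≤ 29 ^ (v * N) := by
        refine le_trans ?_ hsN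
        rw [hq, pow_add]
        exact Nat.mul_le_mul_left _ (Nat.sub_le _ _)
      exact_mod_cast h0
    have h2 := Real.log_le_log hqpos h1
    rw [Real.log_pow] at h2
    have h3 := log29_le
    have h4 : (0 : ℝ) ≤ ((v * N : ℕ) : ℝ) := Nat.cast_nonneg _
    nlinarith
  have hdq : 2 ^ (v * N) ∣ q := by
    rw [hq, pow_mul]
    exact (pow_dvd_pow_of_dvd hd N).mul_right _
  obtain ⟨i, hi1, hi2, hi3⟩ := Pool.Agent.H346R2.Pi.no_run (Real.log 2) b hb N s l hs 2.347 (by norm_num) hl1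
    (fun p => by
      have := hq0 q (by omega) (v * N) hdq hlogq p
      rw [hq] at this
      exact this)
  refine ⟨i, hi1, ?_, hi3⟩
  have : (i : ℝ) ≤ N + l := by exact_mod_cast hi2
  linarith

end Pool.Agent.H346R2.L2
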