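import Pool.Agent.H346R2.L2.Mn
import Pool.Agent.H346R2.L2.Prim

/-!
Integrality of the linear forms.
-/

open Polynomial

namespace Pool.Agent.H346R2.L2

/-- integers inside `ℝ` -/
noncomputable def ZI : Subring ℝ := (Int.castRingHom ℝ).range

lemma ZI_int (a : ℤ) : (a : ℝ) ∈ ZI := intCast_mem ZI a

lemma ZI_nat (a : ℕ) : (a : ℝ) ∈ ZI := natCast_mem ZI a

lemma ZI_ex {z : ℝ} (hz : z ∈ ZI) : ∃ b : ℤ, z = b := by
  obtain ⟨a, rfl⟩ := hz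
  exact ⟨a, by simp⟩

lemma two_adic_aux (n j : ℕ) : ∃ r : ℤ, 2 ^ j * g n j = 2 ^ (12 * n) * r := by
  have h1 : PowerSeries.coeff j (PowerSeries.rescale (2 : ℤ) (G ℤ n)) = 2 ^ j * g n j := by
    rw [PowerSeries.coeff_rescale]; rfl
  have hQ : PowerSeries.rescale (2 : ℤ) (((2 + X : ℤ[X])) : PowerSeries ℤ)
      = PowerSeries.C 2 * (((1 + X : ℤ[X])) : PowerSeries ℤ) := by
    have e1 : (((2 + X : ℤ[X])) : PowerSeries ℤ) = PowerSeries.C 2 + PowerSeries.X := by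
      rw [Polynomial.coe_add, Polynomial.coe_X, show (2 : ℤ[X]) = C 2 from rfl, Polynomial.coe_C]
    have e2 : (((1 + X : ℤ[X])) : PowerSeries ℤ) = 1 + PowerSeries.X := by
      rw [Polynomial.coe_add, Polynomial.coe_X, Polynomial.coe_one]
    rw [e1, e2, map_add, PowerSeries.rescale_X, mul_add, mul_one]
    congr 1
    ext i
    rw [PowerSeries.coeff_rescale, PowerSeries.coeff_C]
    split_ifs with h
    · simp [h]
    · simp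
  have h2 : PowerSeries.rescale (2 : ℤ) (G ℤ n) = PowerSeries.C (2 ^ (12 * n)) *
      (PowerSeries.rescale (2 : ℤ) (((1 + X : ℤ[X]) : PowerSeries ℤ) ^ (42 * n)) *
        PowerSeries.rescale (2 : ℤ) (((1 + 2 * X : ℤ[X]) : PowerSeries ℤ) ^ (12 * n)) *
        (((1 + X : ℤ[X])) : PowerSeries ℤ) ^ (12 * n) *
        PowerSeries.rescale (2 : ℤ) (geo (1 : ℤ) ^ (22 * n))) := by
    have e3 : PowerSeries.C ((2 : ℤ) ^ (12 * n)) = (PowerSeries.C (2 : ℤ)) ^ (12 * n) := map_pow _ _ _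
    rw [G, Num, Polynomial.coe_mul, Polynomial.coe_pow, Polynomial.coe_pow, Polynomial.coe_mul, mul_pow,
      map_mul, map_mul, map_mul, map_pow (PowerSeries.rescale (2 : ℤ)) (((2 + X : ℤ[X])) : PowerSeries ℤ),
      hQ, mul_pow, e3]
    ring
  refine ⟨PowerSeries.coeff j (PowerSeries.rescale (2 : ℤ) (((1 + X : ℤ[X]) : PowerSeries ℤ) ^ (42 * n)) *
        PowerSeries.rescale (2 : ℤ) (((1 + 2 * X : ℤ[X]) : PowerSeries ℤ) ^ (12 * n)) *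
        (((1 + X : ℤ[X])) : PowerSeries ℤ) ^ (12 * n) *
        PowerSeries.rescale (2 : ℤ) (geo (1 : ℤ) ^ (22 * n))), ?_⟩
  rw [← h1, h2, PowerSeries.coeff_C_mul]

lemma two_adic (n j : ℕ) (hj : j ≤ 22 * n) : (2 : ℝ) ^ (10 * n) * (g n j : ℝ) * (2⁻¹) ^ (22 * n - j) ∈ ZI := by
  obtain ⟨r, hr⟩ := two_adic_aux n j
  have h1 : (2 : ℝ) ^ j * (g n j : ℝ) = 2 ^ (12 * n) * (r : ℝ) := by exact_mod_cast hr
  have e : (2 : ℝ) ^ (10 * n) * (g n j : ℝ) * (2⁻¹) ^ (22 * n - j) = (r : ℝ) := by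
    have e1 : (2 : ℝ) ^ (12 * n) * 2 ^ (10 * n) = 2 ^ j * 2 ^ (22 * n - j) := by
      rw [← pow_add, ← pow_add]; congr 1; omega
    have h12 : (2 : ℝ) ^ (12 * n) ≠ 0 := pow_ne_zero _ (by norm_num)
    have hj0 : (2 : ℝ) ^ j ≠ 0 := pow_ne_zero _ (by norm_num)
    have hk0 : (2 : ℝ) ^ (22 * n - j) ≠ 0 := pow_ne_zero _ (by norm_num)
    rw [inv_pow, ← div_eq_mul_inv, div_eq_iff hk0]
    apply mul_left_cancel₀ hj0
    calc (2 : ℝ) ^ j * (2 ^ (10 * n) * (g n j : ℝ)) = 2 ^ (10 * n) * (2 ^ j * (g n j : ℝ)) := by ring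
      _ = r * (2 ^ (12 * n) * 2 ^ (10 * n)) := by rw [h1]; ring
      _ = 2 ^ j * (r * 2 ^ (22 * n - j)) := by rw [e1]; ring
  rw [e]
  exact ZI_int r

lemma bezout_ZI (y : ℝ) (a b : ℕ) (hab : Nat.Coprime a b) (ha : (a : ℝ) * y ∈ ZI) (hb : (b : ℝ) * y ∈ ZI) :
    y ∈ ZI := by
  have h := Nat.isCoprime_iff_coprime.mpr hab
  obtain ⟨u, v, huv⟩ := h
  have e : y = (u : ℝ) * ((a : ℝ) * y) + (v : ℝ) * ((b : ℝ) * y) := by
    have : (u : ℝ) * (a : ℝ) + (v : ℝ) * (b : ℝ) = 1 := by exact_mod_cast huv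
    linear_combination -y * this
  rw [e]
  exact ZI.add_mem (ZI.mul_mem (ZI_int u) ha) (ZI.mul_mem (ZI_int v) hb)

lemma term1 (n j : ℕ) (hn : 2400 ≤ n) (hj : j < 22 * n) :
    (2 : ℝ) ^ (10 * n) * (Mn n : ℝ) * ((g n j : ℝ) * (-1) ^ j *
      (((2 : ℝ) ^ (22 * n - j) - (2⁻¹) ^ (22 * n - j)) / ((22 * n - j : ℕ) : ℝ))) ∈ ZI := by
  obtain ⟨k, hk⟩ : ∃ k, 22 * n - j = k := ⟨_, rfl⟩
  have hk0 : 0 < k := by omega
  have hkn : k ≤ 22 * n := by omega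
  obtain ⟨gk, k', h1, hodd, ⟨m', hm'⟩, ⟨a', ha'⟩⟩ := Mn_dvd n k (g n j) hn hk0 hkn (by
    intro p hp hpk
    obtain ⟨g1, g2, -, g4⟩ := good_of_mem n p hp
    have := good_g n p k g1 (by omega) (g2 (by omega)) hpk hkn
    rwa [show 22 * n - k = j by omega] at this)
  have h2 := two_adic n j hj.le
  rw [hk] at h2 ⊢
  have hgk0 : gk ≠ 0 := by rintro rfl; omega
  have hk'0 : k' ≠ 0 := by rintro rfl; omega
  have h2k : (2 : ℝ) ^ k ≠ 0 := pow_ne_zero _ (by norm_num)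
  -- y = a' 2^(10n) 2^(-k)
  have hy : (a' : ℝ) * (2 : ℝ) ^ (10 * n) * (2⁻¹) ^ k ∈ ZI := by
    apply bezout_ZI _ gk (2 ^ k)
    · exact (Nat.coprime_pow_right_iff hk0 _ _).mpr (Nat.coprime_two_right.mpr hodd)
    · have : (gk : ℝ) * ((a' : ℝ) * (2 : ℝ) ^ (10 * n) * (2⁻¹) ^ k)
          = (2 : ℝ) ^ (10 * n) * (g n j : ℝ) * (2⁻¹) ^ k := by
        rw [ha']; push_cast; ring
      rw [this]; exact h2
    · have : ((2 ^ k : ℕ) : ℝ) * ((a' : ℝ) * (2 : ℝ) ^ (10 * n) * (2⁻¹) ^ k)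
          = (a' : ℝ) * ((2 ^ (10 * n) : ℕ) : ℝ) := by
        rw [inv_pow]; push_cast; field_simp
      rw [this]
      exact ZI.mul_mem (ZI_int _) (ZI_nat _)
  have e : (2 : ℝ) ^ (10 * n) * (Mn n : ℝ) * ((g n j : ℝ) * (-1) ^ j *
      (((2 : ℝ) ^ k - (2⁻¹) ^ k) / (k : ℝ)))
      = (-1) ^ j * ((m' : ℝ) * (a' : ℝ) * ((2 ^ (10 * n) : ℕ) : ℝ) * ((2 ^ k : ℕ) : ℝ)
        - (m' : ℝ) * ((a' : ℝ) * (2 : ℝ) ^ (10 * n) * (2⁻¹) ^ k)) := by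
    rw [hm', ha', h1]
    push_cast
    have c1 : (gk : ℝ) ≠ 0 := by exact_mod_cast hgk0
    have c2 : (k' : ℝ) ≠ 0 := by exact_mod_cast hk'0
    generalize (2 : ℝ) ^ (10 * n) = U
    generalize (2 : ℝ) ^ (gk * k') = V
    generalize (2⁻¹ : ℝ) ^ (gk * k') = W
    generalize (-1 : ℝ) ^ j = S
    field_simp
  rw [e]
  apply ZI.mul_mem (ZI.pow_mem (ZI.neg_mem ZI.one_mem) _)
  apply ZI.sub_mem
  · exact ZI.mul_mem (ZI.mul_mem (ZI.mul_mem (ZI_nat _) (ZI_int _)) (ZI_nat _)) (ZI_nat _)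
  · exact ZI.mul_mem (ZI_nat _) hy

lemma kap_eq (n : ℕ) : kap n / 6 = ((6 * 2 ^ (20 * n) * 3 ^ (2 * n) : ℕ) : ℝ) := by
  rw [kap]
  push_cast
  have e1 : (36 : ℝ) ^ (22 * n + 1) = 36 * (2 ^ (44 * n) * 3 ^ (44 * n)) := by
    rw [← mul_pow (2 : ℝ) 3, show (2 * 3 : ℝ) = 6 by norm_num, show 44 * n = 2 * (22 * n) by ring,
      pow_mul (6 : ℝ) 2 (22 * n), show (6 : ℝ) ^ 2 = 36 by norm_num, pow_succ]; ring
  have e2 : (9 : ℝ) ^ (21 * n) = 3 ^ (42 * n) := by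
    rw [show 42 * n = 2 * (21 * n) by ring, pow_mul (3 : ℝ) 2 (21 * n), show (3 : ℝ) ^ 2 = 9 by norm_num]
  have e3 : (4 : ℝ) ^ (12 * n) = 2 ^ (24 * n) := by
    rw [show 24 * n = 2 * (12 * n) by ring, pow_mul (2 : ℝ) 2 (12 * n), show (2 : ℝ) ^ 2 = 4 by norm_num]
  rw [e1, e2, e3]
  have h3 : (3 : ℝ) ^ (42 * n) ≠ 0 := pow_ne_zero _ (by norm_num)
  have h2 : (2 : ℝ) ^ (24 * n) ≠ 0 := pow_ne_zero _ (by norm_num)
  rw [div_div, div_eq_iff (mul_ne_zero (mul_ne_zero h3 h2) (by norm_num))]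
  have f1 : (2 : ℝ) ^ (44 * n) = 2 ^ (20 * n) * 2 ^ (24 * n) := by rw [← pow_add]; congr 1; ring
  have f2 : (3 : ℝ) ^ (44 * n) = 3 ^ (2 * n) * 3 ^ (42 * n) := by rw [← pow_add]; congr 1; ring
  rw [f1, f2]
  ring

lemma term2 (n j : ℕ) (hn : 2400 ≤ n) (hj : j < 11 * n) :
    (Mn n : ℝ) * (kap n / 6 * ((h n j : ℝ) *
      (sv 2 ^ (2 * (11 * n - 1 - j) + 1) / ((2 * (11 * n - 1 - j) + 1 : ℕ) : ℝ)))) ∈ ZI := by
  obtain ⟨m, hm⟩ : ∃ m, 11 * n - 1 - j = m := ⟨_, rfl⟩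
  obtain ⟨gk, k', h1, hodd, ⟨m', hm'⟩, ⟨a', ha'⟩⟩ := Mn_dvd n (2 * m + 1) (h n j) hn (by omega) (by omega) (by
    intro p hp hpk
    obtain ⟨g1, g2, -, g4⟩ := good_of_mem n p hp
    have := good_h n p m g1 (by omega) (g2 (by omega)) hpk (by omega)
    rwa [show 11 * n - 1 - m = j by omega] at this)
  rw [hm, sv_two, one_pow]
  have hgk0 : gk ≠ 0 := by rintro rfl; omega
  have hk'0 : k' ≠ 0 := by rintro rfl; omega
  have e : (Mn n : ℝ) * (kap n / 6 * ((h n j : ℝ) * (1 / ((2 * m + 1 : ℕ) : ℝ))))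
      = (kap n / 6) * ((m' : ℝ) * (a' : ℝ)) := by
    have hc : ((2 * m + 1 : ℕ) : ℝ) = (gk : ℝ) * (k' : ℝ) := by rw [h1]; push_cast; ring
    rw [hm', ha', hc]
    push_cast
    have c1 : (gk : ℝ) ≠ 0 := by exact_mod_cast hgk0
    have c2 : (k' : ℝ) ≠ 0 := by exact_mod_cast hk'0
    field_simp
  rw [e, kap_eq]
  exact ZI.mul_mem (ZI_nat _) (ZI.mul_mem (ZI_nat _) (ZI_int _))

/-- the rational part of the linear form -/
noncomputable def w (n : ℕ) : ℝ := Prim n 2 - (g n (22 * n) : ℝ) * Real.log 2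

lemma w_int (n : ℕ) (hn : 2400 ≤ n) :
    ∃ b : ℤ, (2 : ℝ) ^ (10 * n) * ((Mn n : ℝ) * w n) = b := by
  apply ZI_ex
  have e : (2 : ℝ) ^ (10 * n) * ((Mn n : ℝ) * w n)
      = (∑ j ∈ Finset.range (22 * n),
          (2 : ℝ) ^ (10 * n) * (Mn n : ℝ) * ((g n j : ℝ) * (-1) ^ j *
          (((2 : ℝ) ^ (22 * n - j) - (2⁻¹) ^ (22 * n - j)) / ((22 * n - j : ℕ) : ℝ))))
        - ((2 ^ (10 * n) : ℕ) : ℝ) * (∑ j ∈ Finset.range (11 * n),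
          (Mn n : ℝ) * (kap n / 6 * ((h n j : ℝ) *
          (sv 2 ^ (2 * (11 * n - 1 - j) + 1) / ((2 * (11 * n - 1 - j) + 1 : ℕ) : ℝ))))) := by
    rw [w, Prim, ← Finset.mul_sum, ← Finset.mul_sum, ← Finset.mul_sum]
    push_cast
    ring
  rw [e]
  apply ZI.sub_mem
  · apply ZI.sum_mem
    intro j hj
    exact term1 n j hn (Finset.mem_range.mp hj)
  · apply ZI.mul_mem (ZI_nat _)
    apply ZI.sum_mem
    intro j hj
    exact term2 n j hn (Finset.mem_range.mp hj)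

end Pool.Agent.H346R2.L2
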