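import Pool.Agent.H346R2.L2.Bound
import Pool.Agent.H346R2.L2.Integ
import Pool.Agent.H346R2.L2.Coef
import Pool.Agent.H346R2.L2.Asym
import Pool.Agent.H346R2.L2.Deduce

/-!
The irrationality measure of `log 2` with respect to denominators having a large `2`-part.
-/

open Filter

namespace Pool.Agent.H346R2.L2

lemma exp_one_pow_lt (m : ℕ) : Real.exp m ≤ 2.7182818286 ^ m := by
  have h := Real.exp_one_lt_d9.le
  have : Real.exp (m : ℝ) = Real.exp 1 ^ m := by rw [← Real.exp_nat_mul, mul_one]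
  rw [this]
  exact pow_le_pow_left₀ (Real.exp_pos 1).le h m

lemma exp_one_pow_gt (m : ℕ) : (2.7182818283 : ℝ) ^ m ≤ Real.exp m := by
  have h := Real.exp_one_gt_d9.le
  have : Real.exp (m : ℝ) = Real.exp 1 ^ m := by rw [← Real.exp_nat_mul, mul_one]
  rw [this]
  exact pow_le_pow_left₀ (by norm_num) h m

lemma rho_le : rho ≤ Real.exp (-52.26) := by
  have h1 : rho ^ 23 ≤ Real.exp (-52.26) ^ 23 := by
    have h0 : Real.exp (-((1202 : ℕ) : ℝ)) ≤ Real.exp (-52.26) ^ 23 := by
      rw [← Real.exp_nat_mul]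
      apply Real.exp_le_exp.mpr
      norm_num
    refine le_trans ?_ h0
    rw [Real.exp_neg]
    have h2 := exp_one_pow_lt 1202
    have h3 : rho ^ 23 * (2.7182818286 : ℝ) ^ 1202 ≤ 1 := by
      rw [show 1202 = 150 * 8 + 2 by norm_num, pow_add, pow_mul]
      unfold rho rhoS
      norm_num
    rw [← one_div, le_div_iff₀ (Real.exp_pos _)]
    have h4 : 0 ≤ rho ^ 23 := pow_nonneg rho_pos.le _
    calc rho ^ 23 * Real.exp ((1202 : ℕ) : ℝ) ≤ rho ^ 23 * (2.7182818286 : ℝ) ^ 1202 :=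
          mul_le_mul_of_nonneg_left h2 h4
      _ ≤ 1 := h3
  exact le_of_pow_le_pow_left₀ (by norm_num) (Real.exp_pos _).le h1

/-- the growth constant -/
noncomputable def Gam : ℝ := ((1 + 13 / 50) ^ 42 * ((1 + 2 * (13 / 50)) * (2 + (13 / 50))) ^ 12
  / (1 - 13 / 50) ^ 22) / (13 / 50) ^ 22

lemma Gam_le : Gam ≤ Real.exp 60.78 := by
  have h1 : Gam ^ 9 ≤ Real.exp 60.78 ^ 9 := by
    have h2 : Real.exp ((547 : ℕ) : ℝ) ≤ Real.exp 60.78 ^ 9 := by
      rw [← Real.exp_nat_mul]
      apply Real.exp_le_exp.mpr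
      norm_num
    refine le_trans (le_trans ?_ (exp_one_pow_gt 547)) h2
    rw [show 547 = 136 * 4 + 3 by norm_num, pow_add, pow_mul]
    unfold Gam
    norm_num
  exact le_of_pow_le_pow_left₀ (by norm_num) (Real.exp_pos _).le h1

lemma gr_le (n : ℕ) : gr n (22 * n) ≤ Real.exp (60.78 * n) := by
  have h := gr_upper n (22 * n) (13 / 50) (by norm_num) (by norm_num)
  have h2 : gr n (22 * n) ≤ Gam ^ n := by
    unfold Gam
    rw [div_pow _ ((13 / 50) ^ 22 : ℝ), ← pow_mul (13 / 50 : ℝ), le_div_iff₀ (by positivity)]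
    exact h
  refine h2.trans ?_
  have hG : 0 ≤ Gam := by unfold Gam; positivity
  calc Gam ^ n ≤ Real.exp 60.78 ^ n := pow_le_pow_left₀ hG Gam_le n
    _ = Real.exp (60.78 * n) := by rw [← Real.exp_nat_mul]; ring_nf

lemma poly_exp (C : ℝ) (b : ℝ) (hb : 0 < b) : ∀ᶠ n : ℕ in atTop,
    C * (22 * (n : ℝ) + 23) ^ 44 ≤ Real.exp (b * n) := by
  have h := (isLittleO_pow_exp_pos_mul_atTop 44 hb).comp_tendsto tendsto_natCast_atTop_atTop
  have h2 := h.bound (show (0 : ℝ) < 1 / ((|C| + 1) * 45 ^ 44) by positivity)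
  filter_upwards [h2, eventually_ge_atTop 1] with n hn hn1
  simp only [Function.comp_apply, norm_pow, Real.norm_eq_abs, Real.abs_exp, Nat.abs_cast] at hn
  have hnR : (1 : ℝ) ≤ n := by exact_mod_cast hn1
  have h3 : (22 * (n : ℝ) + 23) ^ 44 ≤ (45 * n) ^ 44 := by
    apply pow_le_pow_left₀ (by positivity); linarith
  calc C * (22 * (n : ℝ) + 23) ^ 44 ≤ (|C| + 1) * (45 * n) ^ 44 := by
        apply mul_le_mul _ h3 (by positivity) (by positivity)
        linarith [le_abs_self C]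
    _ = ((|C| + 1) * 45 ^ 44) * (n : ℝ) ^ 44 := by ring
    _ ≤ ((|C| + 1) * 45 ^ 44) * (1 / ((|C| + 1) * 45 ^ 44) * Real.exp (b * n)) := by gcongr
    _ = Real.exp (b * n) := by field_simp

/-- coefficient of `log 2` -/
noncomputable def An (n : ℕ) : ℝ := Mn n * gr n (22 * n)

/-- rational part -/
noncomputable def Bn (n : ℕ) : ℝ := Mn n * w n

lemma An_form (n : ℕ) : An n * Real.log 2 + Bn n = Mn n * Prim n 2 := by
  rw [An, Bn, w, gr_eq]; ring

lemma An_int (n : ℕ) : ∃ a : ℤ, An n = a := by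
  refine ⟨(Mn n : ℤ) * g n (22 * n), ?_⟩
  rw [An, gr_eq]; push_cast; ring

lemma Bn_int (n : ℕ) (hn : 2400 ≤ n) : ∃ b : ℤ, (2 : ℝ) ^ (10 * n) * Bn n = b := by
  obtain ⟨b, hb⟩ := w_int n hn
  exact ⟨b, by rw [Bn, hb]⟩

lemma form_small (n : ℕ) (hn : 0 < n) (h1 : (Mn n : ℝ) ≤ Real.exp ((22 - sav + 0.0001) * n)) :
    |An n * Real.log 2 + Bn n| ≤ Real.exp (-(33.7797 * n)) := by
  have hsv := sav_ge
  rw [An_form]
  have hMp : (0 : ℝ) ≤ Mn n := Nat.cast_nonneg _
  have h6 : |Prim n 2| ≤ rho ^ n := prim_bound n hn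
  have h7 : rho ^ n ≤ Real.exp (-52.26 * n) := by
    calc rho ^ n ≤ Real.exp (-52.26) ^ n := pow_le_pow_left₀ rho_pos.le rho_le n
      _ = Real.exp (-52.26 * n) := by rw [← Real.exp_nat_mul]; ring_nf
  rw [abs_mul, abs_of_nonneg hMp]
  calc (Mn n : ℝ) * |Prim n 2|
      ≤ Real.exp ((22 - sav + 0.0001) * n) * Real.exp (-52.26 * n) := by
        apply mul_le_mul h1 (h6.trans h7) (abs_nonneg _) (Real.exp_pos _).le
    _ = Real.exp ((22 - sav + 0.0001) * n + -52.26 * n) := by
        rw [Real.exp_add]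
    _ ≤ Real.exp (-(33.7797 * n)) := by
        apply Real.exp_le_exp.mpr
        have : (0 : ℝ) ≤ n := Nat.cast_nonneg n
        nlinarith

lemma Fi_pos (n : ℕ) (z : ℝ) (hz1 : 1 < z) (hz2 : z < 2) : 0 < Fi n z := by
  rw [Fi, num_eval]
  have h1 : 0 < z - 1 := by linarith
  have h2 : 0 < (2 * z - 1) * (2 - z) := mul_pos (by linarith) (by linarith)
  have h3 : 0 < z := by linarith
  have h4 : 0 < 1 + z := by linarith
  positivity

lemma Prim_two_pos (n : ℕ) (hn : 0 < n) : 0 < Prim n 2 := by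
  have h : StrictMonoOn (Prim n) (Set.Icc (1 : ℝ) 2) := by
    apply strictMonoOn_of_deriv_pos (convex_Icc _ _)
    · intro x hx
      exact (prim_hasDeriv n hn x (by linarith [hx.1])).continuousAt.continuousWithinAt
    · intro x hx
      rw [interior_Icc] at hx
      rw [(prim_hasDeriv n hn x (by linarith [hx.1])).deriv]
      exact Fi_pos n x hx.1 hx.2
  have h2 := h (show (1 : ℝ) ∈ Set.Icc (1 : ℝ) 2 by norm_num) (show (2 : ℝ) ∈ Set.Icc (1 : ℝ) 2 by norm_num)
    (by norm_num)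
  rwa [prim_one] at h2

theorem irrational_log_two : Irrational (Real.log 2) := by
  rintro ⟨r, hr⟩
  have hM := Mn_bounds 0.0001 (by norm_num)
  have hev : ∀ᶠ n : ℕ in atTop, (r.den : ℝ) < Real.exp (26 * n) := by
    have : Tendsto (fun n : ℕ => Real.exp (26 * (n : ℝ))) atTop atTop :=
      Real.tendsto_exp_atTop.comp (tendsto_natCast_atTop_atTop.const_mul_atTop (by norm_num))
    exact this.eventually_gt_atTop _
  obtain ⟨n, ⟨-, h1⟩, h2, h3⟩ := (hM.and (hev.and (eventually_ge_atTop 2400))).exists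
  have hn0 : 0 < n := by omega
  obtain ⟨a, ha⟩ := An_int n
  obtain ⟨b, hb⟩ := Bn_int n h3
  have hsm := form_small n hn0 h1
  have hMp : (0 : ℝ) < Mn n := by exact_mod_cast Mn_pos n
  have hpos : 0 < An n * Real.log 2 + Bn n := by
    rw [An_form]
    exact mul_pos hMp (Prim_two_pos n hn0)
  have hden : (0 : ℝ) < r.den := by exact_mod_cast r.den_pos
  have hX : (r.den : ℝ) * (2 ^ (10 * n) * (An n * Real.log 2 + Bn n))
      = ((a * 2 ^ (10 * n) * r.num + r.den * b : ℤ) : ℝ) := by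
    push_cast
    rw [← ha, ← hb, ← hr]
    have : (r : ℝ) * (r.den : ℝ) = (r.num : ℝ) := by
      have := Rat.mul_den_eq_num r
      exact_mod_cast this
    linear_combination (2 ^ (10 * n) * An n) * this
  have hge : (1 : ℝ) ≤ (r.den : ℝ) * (2 ^ (10 * n) * (An n * Real.log 2 + Bn n)) := by
    have h5 : 0 < (r.den : ℝ) * (2 ^ (10 * n) * (An n * Real.log 2 + Bn n)) := by positivity
    rw [hX] at h5 ⊢
    have h6 : (0 : ℤ) < (a * 2 ^ (10 * n) * r.num + r.den * b : ℤ) := by exact_mod_cast h5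
    exact_mod_cast h6
  have hlt : (r.den : ℝ) * (2 ^ (10 * n) * (An n * Real.log 2 + Bn n)) < 1 := by
    rw [abs_of_pos hpos] at hsm
    have h7 : (2 : ℝ) ^ (10 * n) ≤ Real.exp (7 * n) := by
      have : (2 : ℝ) ^ (10 * n) = Real.exp ((10 * n : ℕ) * Real.log 2) := by
        rw [Real.exp_nat_mul, Real.exp_log (by norm_num)]
      rw [this]
      apply Real.exp_le_exp.mpr
      have h8 := Real.log_two_lt_d9
      push_cast
      have : (0 : ℝ) ≤ n := Nat.cast_nonneg n
      nlinarith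
    calc (r.den : ℝ) * (2 ^ (10 * n) * (An n * Real.log 2 + Bn n))
        < Real.exp (26 * n) * (2 ^ (10 * n) * (An n * Real.log 2 + Bn n)) := by
          apply mul_lt_mul_of_pos_right h2
          positivity
      _ ≤ Real.exp (26 * n) * (Real.exp (7 * n) * Real.exp (-(33.7797 * n))) := by
          gcongr
      _ = Real.exp (26 * n + (7 * n + -(33.7797 * n))) := by
          rw [Real.exp_add, Real.exp_add]
      _ ≤ Real.exp 0 := by
          apply Real.exp_le_exp.mpr
          have : (0 : ℝ) ≤ n := Nat.cast_nonneg n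
          nlinarith
      _ = 1 := Real.exp_zero
  linarith

theorem measure : ∀ᶠ q : ℕ in atTop, ∀ α : ℕ, 2 ^ α ∣ q →
    10 * Real.log q ≤ 33.779 * α →
      ∀ p : ℤ, Real.exp (-(2.347 * Real.log q)) ≤ |q * Real.log 2 - p| := by
  have hM := Mn_bounds 0.0001 (by norm_num)
  have hsv := sav_ge
  obtain ⟨c0, hc0⟩ : ∃ c0 : ℝ, c0 = 2 ^ 42 * 9 ^ 12 * Real.exp 100 := ⟨_, rfl⟩
  have hP := poly_exp c0 0.0001 (by norm_num)
  have hall : ∀ᶠ n : ℕ in atTop, (Real.exp ((22 - sav - 0.0001) * n) ≤ Mn n ∧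
      (Mn n : ℝ) ≤ Real.exp ((22 - sav + 0.0001) * n)) ∧
      (Mn (n + 1) : ℝ) ≤ Real.exp ((22 - sav + 0.0001) * ((n + 1 : ℕ) : ℝ)) ∧
      c0 * (22 * (n : ℝ) + 23) ^ 44 ≤ Real.exp (0.0001 * n) ∧ 2400 ≤ n := by
    have hM' : ∀ᶠ n : ℕ in atTop, (Mn (n + 1) : ℝ) ≤ Real.exp ((22 - sav + 0.0001) * ((n + 1 : ℕ) : ℝ)) :=
      ((tendsto_add_atTop_nat 1).eventually hM).mono fun n hn => hn.2
    filter_upwards [hM, hM', hP, eventually_ge_atTop 2400] with n h1 h2 h3 h5
    exact ⟨h1, h2, h3, h5⟩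
  obtain ⟨n0, hn0⟩ := eventually_atTop.mp hall
  have hmain := abstract_measure (Real.log 2) irrational_log_two An Bn n0 79.2602 33.7797 0.0004 2.347 33.779
    10 0
    (by
      intro n _
      exact An_int n)
    (by
      intro n hn
      obtain ⟨-, -, -, h5⟩ := hn0 n hn
      obtain ⟨b, hb⟩ := Bn_int n h5
      exact ⟨b, by rw [← hb]; simp⟩)
    (by
      intro n hn
      obtain ⟨-, -, -, h5⟩ := hn0 n hn
      have h1 : (0 : ℝ) < Mn n := by exact_mod_cast Mn_pos n
      exact mul_pos h1 (gr_pos n (by omega) _))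
    (by
      intro n hn
      obtain ⟨⟨-, h1⟩, -, -, h5⟩ := hn0 n hn
      exact form_small n (by omega) h1)
    (by
      intro n hn
      obtain ⟨⟨-, h1⟩, -, -, h5⟩ := hn0 n hn
      rw [An]
      calc (Mn n : ℝ) * gr n (22 * n) ≤ Real.exp ((22 - sav + 0.0001) * n) * Real.exp (60.78 * n) := by
            apply mul_le_mul h1 (gr_le n) (gr_nonneg _ _) (Real.exp_pos _).le
        _ = Real.exp ((22 - sav + 0.0001) * n + 60.78 * n) := by rw [Real.exp_add]
        _ ≤ Real.exp (79.2602 * n) := by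
            apply Real.exp_le_exp.mpr
            have : (0 : ℝ) ≤ n := Nat.cast_nonneg n
            nlinarith)
    (by
      intro n hn
      obtain ⟨⟨h0, -⟩, h2, h3, h5⟩ := hn0 n hn
      rw [An, An]
      have hr := gr_ratio n (by omega)
      have hg := gr_nonneg n (22 * n)
      have hsv22 : sav ≤ 22 := by
        by_contra hcon
        push Not at hcon
        have hMlim := log_Mn_lim
        have hnn : ∀ n : ℕ, 0 ≤ Real.log (Mn n) / n := by
          intro n
          apply div_nonneg _ (Nat.cast_nonneg _)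
          apply Real.log_nonneg
          exact_mod_cast Mn_pos n
        have := ge_of_tendsto' hMlim hnn
        linarith
      have hMM : (Mn (n + 1) : ℝ) ≤ Real.exp 100 * Real.exp (0.0002 * n) * Mn n := by
        calc (Mn (n + 1) : ℝ) ≤ Real.exp ((22 - sav + 0.0001) * ((n + 1 : ℕ) : ℝ)) := h2
          _ ≤ Real.exp (100 + (0.0002 * n + (22 - sav - 0.0001) * n)) := by
              apply Real.exp_le_exp.mpr
              push_cast
              nlinarith
          _ = Real.exp 100 * Real.exp (0.0002 * n) * Real.exp ((22 - sav - 0.0001) * n) := by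
              rw [Real.exp_add, Real.exp_add]; ring
          _ ≤ _ := by gcongr
      calc (Mn (n + 1) : ℝ) * gr (n + 1) (22 * (n + 1))
          ≤ (Real.exp 100 * Real.exp (0.0002 * n) * Mn n) *
              (2 ^ 42 * 9 ^ 12 * (22 * n + 23) ^ 44 * gr n (22 * n)) := by
            apply mul_le_mul hMM hr (gr_nonneg _ _) (by positivity)
        _ = (c0 * (22 * (n : ℝ) + 23) ^ 44) * Real.exp (0.0002 * n) * (Mn n * gr n (22 * n)) := by
            rw [hc0]; ring
        _ ≤ Real.exp (0.0001 * n) * Real.exp (0.0002 * n) * (Mn n * gr n (22 * n)) := by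
            gcongr
        _ = Real.exp (0.0001 * n + 0.0002 * n) * (Mn n * gr n (22 * n)) := by rw [Real.exp_add]
        _ ≤ Real.exp (0.0004 * n) * (Mn n * gr n (22 * n)) := by
            apply mul_le_mul_of_nonneg_right _ (by positivity)
            apply Real.exp_le_exp.mpr
            have : (0 : ℝ) ≤ n := Nat.cast_nonneg n
            linarith)
    (by norm_num) (by norm_num) (by norm_num) (by norm_num)
    (by
      have h2 : Real.log 2 < 0.7 := Real.log_two_lt_d9.trans (by norm_num)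
      push_cast
      linarith)
    (by norm_num)
  filter_upwards [hmain] with q hq α hα1 hα2 p
  refine hq α 0 (by simpa using hα1) (by exact_mod_cast hα2) (by simp) p

end Pool.Agent.H346R2.L2
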