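import Pool.Agent.H346R2.L2.ModP

/-!
The set of good primes used, and the reduced common denominators `Mn`.
-/

open Polynomial

namespace Pool.Agent.H346R2.L2

/-- the intervals (in units of `1/924`) for `n/p` in one period -/
def B0 : Finset (ℕ × ℕ) :=
  {(77, 84), (110, 126), (154, 168), (198, 210), (242, 252), (286, 294), (330, 336), (374, 378),
    (418, 420), (539, 546), (616, 630), (693, 714), (770, 798), (858, 882)}

/-- the intervals (in units of `1/924`) for `n/p` -/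
def Lf : Finset (ℕ × ℕ) :=
  ((Finset.range 10 ×ˢ B0).image fun x => (924 * x.1 + x.2.1, 924 * x.1 + x.2.2)) ∪
  ((Finset.range 9).image fun j => (924 * j + 946, 924 * j + 966))

attribute [irreducible] Lf

/-- primes `p` with `u p ≤ 924 n < v p` -/
def Pset (n : ℕ) (uv : ℕ × ℕ) : Finset ℕ :=
  (Finset.range (22 * n + 1)).filter fun p => p.Prime ∧ uv.1 * p ≤ 924 * n ∧ 924 * n < uv.2 * p

/-- the good primes used -/
def Om (n : ℕ) : Finset ℕ := Lf.biUnion (Pset n)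

lemma Lf_disj : ∀ x ∈ Lf, ∀ y ∈ Lf, x ≠ y → x.2 ≤ y.1 ∨ y.2 ≤ x.1 := by
  decide +kernel

lemma Lf_bds : ∀ x ∈ Lf, 77 ≤ x.1 ∧ x.1 < x.2 ∧ x.2 ≤ 9198 := by
  decide +kernel

lemma Lf_ok : ∀ x ∈ Lf, 924 * (x.1 / 924) ≤ x.2 ∧
    x.2 - 924 * (x.1 / 924) ≤ 42 * (x.1 % 924 / 42 + 1) ∧
    2 * (x.1 % 924 / 42) ≤ x.1 % 924 / 22 + 2 * (x.1 % 924 / 77) ∧
    ((x.1 % 924 / 22 + 2 * (x.1 % 924 / 77) - 2 * (x.1 % 924 / 42)) % 2 = 1 ∧
      x.2 - 924 * (x.1 / 924) ≤
        42 * (x.1 % 924 / 22 + 2 * (x.1 % 924 / 77) - 2 * (x.1 % 924 / 42)) ∨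
      x.2 - 924 * (x.1 / 924) + 42 ≤
        42 * (x.1 % 924 / 22 + 2 * (x.1 % 924 / 77) - 2 * (x.1 % 924 / 42))) := by
  decide +kernel

lemma Pset_disj (n : ℕ) : (Lf : Set (ℕ × ℕ)).PairwiseDisjoint (Pset n) := by
  intro x hx y hy hxy
  rw [Function.onFun, Finset.disjoint_left]
  intro p hp hq
  simp only [Pset, Finset.mem_filter] at hp hq
  rcases Lf_disj x hx y hy hxy with h | h
  · have := Nat.mul_le_mul_right p h
    omega
  · have := Nat.mul_le_mul_right p h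
    omega

lemma seg_good (n p j u v k1 k2 k3 K : ℕ) (hpodd : Odd p) (h1 : (924 * j + u) * p ≤ 924 * n)
    (h2 : 924 * n < (924 * j + v) * p) (hk1 : 22 * k1 ≤ u) (hk2 : 77 * k2 ≤ u) (hk3 : 42 * k3 ≤ u)
    (c3 : v ≤ 42 * (k3 + 1)) (hK : K + 2 * k3 = k1 + 2 * k2)
    (hc : (Odd K ∧ v ≤ 42 * K) ∨ v + 42 ≤ 42 * K) : Good n p := by
  obtain ⟨P, hP⟩ : ∃ P, P = j * p := ⟨_, rfl⟩
  have e1 : (924 * j + u) * p = 924 * P + u * p := by rw [hP]; ring
  have e2 : (924 * j + v) * p = 924 * P + v * p := by rw [hP]; ring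
  rw [e1] at h1
  rw [e2] at h2
  have a1 : 22 * (k1 * p) ≤ u * p := by rw [← mul_assoc]; exact Nat.mul_le_mul_right p hk1
  have a2 : 77 * (k2 * p) ≤ u * p := by rw [← mul_assoc]; exact Nat.mul_le_mul_right p hk2
  have a3 : 42 * (k3 * p) ≤ u * p := by rw [← mul_assoc]; exact Nat.mul_le_mul_right p hk3
  have a4 : v * p ≤ 42 * (k3 * p + p) := by
    have := Nat.mul_le_mul_right p c3
    refine this.trans (le_of_eq ?_); ring
  have a5 : K * p + 2 * (k3 * p) = k1 * p + 2 * (k2 * p) := by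
    have h3 := congrArg (fun z => z * p) hK
    have h4 : (K + 2 * k3) * p = (k1 + 2 * k2) * p := h3
    linarith [h4]
  have e3 : p * (42 * j + k1) = 42 * P + k1 * p := by rw [hP]; ring
  have e4 : p * (12 * j + k2) = 12 * P + k2 * p := by rw [hP]; ring
  have e5 : p * (22 * j + k3) = 22 * P + k3 * p := by rw [hP]; ring
  have hcK : v * p ≤ 42 * (K * p) := by
    rcases hc with ⟨-, h⟩ | h
    · have := Nat.mul_le_mul_right p h
      rwa [mul_assoc] at this
    · have h' : v ≤ 42 * K := by omega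
      have := Nat.mul_le_mul_right p h'
      rwa [mul_assoc] at this
  refine ⟨42 * j + k1, 12 * j + k2, 22 * j + k3, 42 * n - (42 * P + k1 * p),
    12 * n - (12 * P + k2 * p), 22 * n - (22 * P + k3 * p), 22 * P + K * p - 22 * n, ?_, ?_, ?_, ?_, ?_, ?_⟩
  · omega
  · omega
  · omega
  · omega
  · omega
  · rcases hc with ⟨hKo, -⟩ | h
    · left
      obtain ⟨w, hw⟩ := hKo.mul hpodd
      exact ⟨11 * P + w - 11 * n, by omega⟩
    · right
      have := Nat.mul_le_mul_right p h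
      have e6 : (v + 42) * p = v * p + 42 * p := by ring
      have e7 : 42 * K * p = 42 * (K * p) := by ring
      omega

lemma good_of_mem (n p : ℕ) (hp : p ∈ Om n) : p.Prime ∧ (p ≠ 2 → Good n p) ∧ p ≤ 22 * n ∧
    n < 10 * p := by
  simp only [Om, Finset.mem_biUnion, Pset, Finset.mem_filter, Finset.mem_range] at hp
  obtain ⟨x, hx, hpn, hpp, h1, h2⟩ := hp
  have hb := Lf_bds x hx
  have hlt : n < 10 * p := by
    have := lt_of_lt_of_le h2 (Nat.mul_le_mul_right p hb.2.2)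
    omega
  refine ⟨hpp, ?_, by omega, hlt⟩
  intro hp2
  have hpodd : Odd p := hpp.eq_two_or_odd'.resolve_left hp2
  obtain ⟨o1, o2, o3, o4⟩ := Lf_ok x hx
  have f1 : 924 * (x.1 / 924) + x.1 % 924 = x.1 := Nat.div_add_mod _ _
  have f2 : 924 * (x.1 / 924) + (x.2 - 924 * (x.1 / 924)) = x.2 := by omega
  apply seg_good n p (x.1 / 924) (x.1 % 924) (x.2 - 924 * (x.1 / 924)) (x.1 % 924 / 22)
    (x.1 % 924 / 77) (x.1 % 924 / 42)
    (x.1 % 924 / 22 + 2 * (x.1 % 924 / 77) - 2 * (x.1 % 924 / 42)) hpodd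
  · rw [f1]; exact h1
  · rw [f2]; exact h2
  · omega
  · omega
  · omega
  · exact o2
  · omega
  · rcases o4 with ⟨o4, o5⟩ | o4
    · left
      exact ⟨Nat.odd_iff.mpr o4, o5⟩
    · right
      exact o4

/-- product of the good primes -/
def Dn (n : ℕ) : ℕ := ∏ p ∈ Om n, p

/-- the reduced common denominator -/
def Mn (n : ℕ) : ℕ := Nat.lcmUpto (22 * n) / Dn n

lemma Dn_dvd (n : ℕ) : Dn n ∣ Nat.lcmUpto (22 * n) := by
  apply Finset.prod_primes_dvd
  · intro p hp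
    exact (good_of_mem n p hp).1.prime
  · intro p hp
    obtain ⟨h1, -, h3, -⟩ := good_of_mem n p hp
    exact Finset.dvd_lcm (f := id) (Finset.mem_Icc.mpr ⟨h1.one_le, h3⟩)

lemma Mn_mul (n : ℕ) : Mn n * Dn n = Nat.lcmUpto (22 * n) := Nat.div_mul_cancel (Dn_dvd n)

lemma Mn_pos (n : ℕ) : 0 < Mn n :=
  Nat.div_pos (Nat.le_of_dvd (Nat.lcmUpto_pos _) (Dn_dvd n))
    (Finset.prod_pos fun p hp => (good_of_mem n p hp).1.pos)

lemma sq_gt (n p : ℕ) (hn : 2400 ≤ n) (hp : p ∈ Om n) : 22 * n < p * p := by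
  obtain ⟨-, -, -, h4⟩ := good_of_mem n p hp
  have h1 : 240 ≤ p := by omega
  nlinarith

lemma Mn_dvd (n k : ℕ) (a : ℤ) (hn : 2400 ≤ n) (hk : 0 < k) (hkn : k ≤ 22 * n)
    (ha : ∀ p ∈ Om n, p ∣ k → (p : ℤ) ∣ a) :
    ∃ gk k' : ℕ, k = gk * k' ∧ Odd gk ∧ k' ∣ Mn n ∧ (gk : ℤ) ∣ a := by
  classical
  set gk := ∏ p ∈ (Om n).filter (fun p => p ∣ k), p with hgk
  have h1 : gk ∣ k := by
    apply Finset.prod_primes_dvd
    · intro p hp
      exact (good_of_mem n p (Finset.mem_filter.mp hp).1).1.prime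
    · intro p hp
      exact (Finset.mem_filter.mp hp).2
  obtain ⟨k', hk'⟩ := h1
  refine ⟨gk, k', hk', ?_, ?_, ?_⟩
  · rw [hgk]
    apply Finset.prod_induction (p := Odd) 
    · intro a b ha hb; exact ha.mul hb
    · exact odd_one
    · intro p hp
      obtain ⟨h1, -, -, h4⟩ := good_of_mem n p (Finset.mem_filter.mp hp).1
      rcases h1.eq_two_or_odd' with h | h
      · omega
      · exact h
  · have hcop : Nat.Coprime k' (Dn n) := by
      apply Nat.Coprime.prod_right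
      intro p hp
      rw [Nat.coprime_comm, (good_of_mem n p hp).1.coprime_iff_not_dvd]
      intro hpk
      have h2 : p ∣ k := by rw [hk']; exact hpk.mul_left _
      have h3 : p ∣ gk := by
        rw [hgk]
        exact Finset.dvd_prod_of_mem (fun p => p) (Finset.mem_filter.mpr ⟨hp, h2⟩)
      have h4 : p * p ∣ k := by rw [hk']; exact Nat.mul_dvd_mul h3 hpk
      have h5 := Nat.le_of_dvd hk h4
      have := sq_gt n p hn hp
      omega
    have h2 : k' ∣ Mn n * Dn n := by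
      rw [Mn_mul]
      have h3 : k' ∣ k := by rw [hk']; exact dvd_mul_left _ _
      exact h3.trans (Finset.dvd_lcm (f := id) (Finset.mem_Icc.mpr ⟨hk, hkn⟩))
    exact hcop.dvd_of_dvd_mul_right h2
  · rw [Int.natCast_dvd]
    apply Finset.prod_primes_dvd
    · intro p hp
      exact (good_of_mem n p (Finset.mem_filter.mp hp).1).1.prime
    · intro p hp
      obtain ⟨hp1, hp2⟩ := Finset.mem_filter.mp hp
      exact Int.natCast_dvd.mp (ha p hp1 hp2)

end Pool.Agent.H346R2.L2
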