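import Pool.Agent.H346R2.L2.Alg

/-!
Divisibility of the coefficients `g`, `h` by good primes.
-/

open Polynomial

namespace Pool.Agent.H346R2.L2

lemma coeff_pow_p (p : ℕ) [Fact p.Prime] (V : PowerSeries (ZMod p)) (i : ℕ) (hi : ¬ p ∣ i) :
    PowerSeries.coeff i (V ^ p) = 0 := by
  have h1 : PowerSeries.coeff i (V ^ p)
      = PowerSeries.coeff i (((PowerSeries.trunc (i + 1) V : (ZMod p)[X]) : PowerSeries (ZMod p)) ^ p) := by
    have h2 := PowerSeries.trunc_trunc_pow V (i + 1) p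
    have h3 := congrArg (fun q : (ZMod p)[X] => q.coeff i) h2
    simp only [PowerSeries.coeff_trunc, if_pos (Nat.lt_succ_self i)] at h3
    rw [← h3]
  rw [h1, ← Polynomial.coe_pow, Polynomial.coeff_coe, ← ZMod.expand_card,
    Polynomial.coeff_expand (Fact.out : p.Prime).pos, if_neg hi]

/-- `f` has degree at most `d` and `x^d f(1/x) = ε f(x)` -/
def PalE {R : Type*} [CommRing R] (ε : R) (d : ℕ) (f : R[X]) : Prop :=
  f.natDegree ≤ d ∧ Polynomial.reflect d f = C ε * f

lemma PalE.mul {R : Type*} [CommRing R] {ε δ : R} {d e : ℕ} {f k : R[X]} (hf : PalE ε d f)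
    (hk : PalE δ e k) : PalE (ε * δ) (d + e) (f * k) := by
  refine ⟨(Polynomial.natDegree_mul_le).trans (add_le_add hf.1 hk.1), ?_⟩
  rw [Polynomial.reflect_mul _ _ hf.1 hk.1, hf.2, hk.2, map_mul]; ring

lemma PalE.one {R : Type*} [CommRing R] : PalE (1 : R) 0 1 := by
  refine ⟨by simp, ?_⟩
  have := Polynomial.reflect_one (R := R) 0
  simpa using this

lemma PalE.pow {R : Type*} [CommRing R] {ε : R} {d : ℕ} {f : R[X]} (hf : PalE ε d f) (m : ℕ) :
    PalE (ε ^ m) (d * m) (f ^ m) := by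
  induction m with
  | zero => simpa using PalE.one
  | succ m ih => rw [pow_succ, pow_succ, mul_add, mul_one]; exact ih.mul hf

lemma PalE.middle {R : Type*} [CommRing R] [IsDomain R] {c : ℕ} {f : R[X]} (hf : PalE (-1 : R) (2 * c) f)
    (h2 : (2 : R) ≠ 0) : f.coeff c = 0 := by
  have h := congrArg (fun q : R[X] => q.coeff c) hf.2
  simp only [Polynomial.coeff_reflect, Polynomial.coeff_C_mul] at h
  rw [Polynomial.revAt_le (by omega), show 2 * c - c = c by omega] at h
  have h3 : (2 : R) * f.coeff c = 0 := by linear_combination h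
  exact (mul_eq_zero.mp h3).resolve_left h2

lemma palE_one_add {R : Type*} [CommRing R] : PalE (1 : R) 1 (1 + X : R[X]) := by
  have e : (1 + X : R[X]) = C 1 * X ^ 0 + C 1 * X ^ 1 := by
    simp only [map_one]; ring
  rw [e]
  refine ⟨by compute_degree, ?_⟩
  rw [Polynomial.reflect_add]
  simp only [Polynomial.reflect_C_mul_X_pow]
  rw [Polynomial.revAt_le (by norm_num), Polynomial.revAt_le (by norm_num)]
  simp only [map_one]
  ring

lemma palE_one_sub {R : Type*} [CommRing R] : PalE (-1 : R) 1 (1 - X : R[X]) := by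
  have e : (1 - X : R[X]) = C 1 * X ^ 0 + C (-1) * X ^ 1 := by
    simp only [map_one, map_neg]; ring
  rw [e]
  refine ⟨by compute_degree, ?_⟩
  rw [Polynomial.reflect_add]
  simp only [Polynomial.reflect_C_mul_X_pow]
  rw [Polynomial.revAt_le (by norm_num), Polynomial.revAt_le (by norm_num)]
  simp only [map_one, map_neg]
  ring

lemma palE_Q {R : Type*} [CommRing R] :
    PalE (1 : R) 2 ((1 + 2 * X) * (2 + X) : R[X]) := by
  have e : ((1 + 2 * X) * (2 + X) : R[X])
      = C 2 * X ^ 0 + C 5 * X ^ 1 + C 2 * X ^ 2 := by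
    simp only [map_ofNat]; ring
  rw [e]
  refine ⟨by compute_degree, ?_⟩
  rw [Polynomial.reflect_add, Polynomial.reflect_add]
  simp only [Polynomial.reflect_C_mul_X_pow]
  rw [Polynomial.revAt_le (by norm_num), Polynomial.revAt_le (by norm_num),
    Polynomial.revAt_le (by norm_num)]
  simp only [map_one]
  ring

/-- the good prime condition -/
def Good (n p : ℕ) : Prop := ∃ A B C' e b c d : ℕ, 42 * n = p * A + e ∧ 12 * n = p * B + b ∧
  22 * n = p * C' + c ∧ c < p ∧ 2 * c = e + 2 * b + d ∧ (Odd d ∨ p ≤ d)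

lemma sum_anti_zero {R : Type*} [CommRing R] (p : ℕ) (V : PowerSeries R) (Φ : R[X]) (N D : ℕ)
    (hV : ∀ i, ¬ p ∣ i → PowerSeries.coeff i V = 0) (hD : Φ.natDegree ≤ D)
    (hΦ : ∀ j ≤ D, (∃ i, p ∣ i ∧ i + j = N) → Φ.coeff j = 0) :
    PowerSeries.coeff N (V * (Φ : PowerSeries R)) = 0 := by
  rw [PowerSeries.coeff_mul]
  apply Finset.sum_eq_zero
  intro ij hij
  have h1 : ij.1 + ij.2 = N := by simpa using hij
  by_cases hp : p ∣ ij.1
  · by_cases hj : ij.2 ≤ D
    · rw [Polynomial.coeff_coe, hΦ ij.2 hj ⟨ij.1, hp, h1⟩, mul_zero]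
    · rw [Polynomial.coeff_coe, Polynomial.coeff_eq_zero_of_natDegree_lt (by omega), mul_zero]
  · rw [hV _ hp, zero_mul]

lemma good_g (n p k : ℕ) (hp : p.Prime) (hp2 : p ≠ 2) (hg : Good n p) (hk : p ∣ k) (hkn : k ≤ 22 * n) :
    (p : ℤ) ∣ g n (22 * n - k) := by
  have : Fact p.Prime := ⟨hp⟩
  obtain ⟨A, B, C', e, b, c, d, hA, hB, hC, hcp, hd, hcase⟩ := hg
  rw [← ZMod.intCast_zmod_eq_zero_iff_dvd, ← coeff_G (R := ZMod p)]
  -- exponent bookkeeping
  obtain ⟨E, hE⟩ : ∃ E, 22 * n + d = p * E := by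
    refine ⟨A + 2 * B - 2 * C', ?_⟩
    rw [Nat.mul_sub, mul_add]
    have h1 : p * (2 * B) = 2 * (p * B) := by ring
    have h2 : p * (2 * C') = 2 * (p * C') := by ring
    rw [h1, h2]
    omega
  have hU : geo (1 : ZMod p) * ((1 - X : (ZMod p)[X]) : PowerSeries (ZMod p)) = 1 := by
    have := geo_mul (1 : ZMod p)
    simpa using this
  set Φ : (ZMod p)[X] := (1 + X) ^ e * ((1 + 2 * X) * (2 + X)) ^ b * (1 - X) ^ d
    with hΦ
  set V : PowerSeries (ZMod p) := ((1 + X : (ZMod p)[X]) : PowerSeries (ZMod p)) ^ A *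
    (((1 + 2 * X) * (2 + X) : (ZMod p)[X]) : PowerSeries (ZMod p)) ^ B *
    geo (1 : ZMod p) ^ E with hVdef
  have hG : G (ZMod p) n = V ^ p * (Φ : PowerSeries (ZMod p)) := by
    have e1 : geo (1 : ZMod p) ^ (22 * n)
        = geo (1 : ZMod p) ^ (p * E) * ((1 - X : (ZMod p)[X]) : PowerSeries (ZMod p)) ^ d := by
      rw [← hE, pow_add, mul_assoc, ← mul_pow, hU, one_pow, mul_one]
    have key : ∀ a q u v : PowerSeries (ZMod p), a ^ (p * A + e) * q ^ (p * B + b) *
        (u ^ (p * E) * v ^ d) = (a ^ A * q ^ B * u ^ E) ^ p * (a ^ e * q ^ b * v ^ d) := by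
      intro a q u v; ring
    rw [G, Num, e1, hA, hB, hΦ, hVdef, Polynomial.coe_mul, Polynomial.coe_pow, Polynomial.coe_pow,
      Polynomial.coe_mul (_ * _) ((1 - X) ^ d), Polynomial.coe_mul ((1 + X) ^ e), Polynomial.coe_pow,
      Polynomial.coe_pow, Polynomial.coe_pow]
    exact key _ _ _ _
  have hPal : PalE ((-1 : ZMod p) ^ d) (2 * c) Φ := by
    have := ((palE_one_add (R := ZMod p)).pow e).mul ((palE_Q (R := ZMod p)).pow b)
    have := this.mul ((palE_one_sub (R := ZMod p)).pow d)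
    rw [one_pow, one_pow, one_mul, one_mul, one_mul, one_mul, ← hd] at this
    exact this
  rw [hG]
  apply sum_anti_zero p _ Φ _ (2 * c) (fun i hi => coeff_pow_p p V i hi) hPal.1
  intro j hj hij
  obtain ⟨i, ⟨i', hi⟩, hi2⟩ := hij
  obtain ⟨k', hk'⟩ := hk
  have hjc : j = c := by
    -- j ≡ c mod p
    have h1 : p * i' + j + p * k' = p * C' + c := by rw [← hi, ← hk', ← hC]; omega
    have h2 : (p * (i' + k') + j) % p = (p * C' + c) % p := by rw [← h1]; congr 1; ring
    rw [Nat.mul_add_mod, Nat.mul_add_mod, Nat.mod_eq_of_lt hcp] at h2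
    by_cases hjp : j < p
    · rw [Nat.mod_eq_of_lt hjp] at h2; exact h2
    · exfalso
      have h3 : p * (j / p) + j % p = j := Nat.div_add_mod j p
      have h4 : 1 ≤ j / p := Nat.div_pos (by omega) hp.pos
      have h5 : p * 1 ≤ p * (j / p) := Nat.mul_le_mul_left _ h4
      omega
  rw [hjc]
  rcases hcase with hodd | hpd
  · rw [hodd.neg_one_pow] at hPal
    apply hPal.middle
    intro h2
    have : ((2 : ℕ) : ZMod p) = 0 := by exact_mod_cast h2
    rw [ZMod.natCast_eq_zero_iff] at this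
    exact hp2 ((Nat.prime_dvd_prime_iff_eq hp Nat.prime_two).mp this)
  · -- d ≥ p
    obtain ⟨d', hd'⟩ := Nat.exists_eq_add_of_le hpd
    have hfrob : (1 - X : (ZMod p)[X]) ^ p = 1 - X ^ p := by
      rw [sub_pow_char, one_pow]
    have e2 : Φ = ((1 + X) ^ e * ((1 + 2 * X) * (2 + X)) ^ b * (1 - X) ^ d')
        - ((1 + X) ^ e * ((1 + 2 * X) * (2 + X)) ^ b * (1 - X) ^ d') * X ^ p := by
      rw [hΦ, hd', pow_add, hfrob]; ring
    have hdeg : ((1 + X) ^ e * ((1 + 2 * X) * (2 + X)) ^ b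
        * (1 - X) ^ d' : (ZMod p)[X]).natDegree ≤ 1 * e + 2 * b + 1 * d' := by
      have := ((palE_one_add (R := ZMod p)).pow e).mul ((palE_Q (R := ZMod p)).pow b)
      exact (this.mul ((palE_one_sub (R := ZMod p)).pow d')).1
    rw [e2, Polynomial.coeff_sub, Polynomial.coeff_mul_X_pow', if_neg (by omega), sub_zero]
    apply Polynomial.coeff_eq_zero_of_natDegree_lt
    omega

lemma good_h (n p m : ℕ) (hp : p.Prime) (hp2 : p ≠ 2) (hg : Good n p) (hm : p ∣ 2 * m + 1)
    (hmn : m < 11 * n) : (p : ℤ) ∣ h n (11 * n - 1 - m) := by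
  have : Fact p.Prime := ⟨hp⟩
  obtain ⟨A, B, C', e, b, c, d, hA, hB, hC, hcp, hd, hcase⟩ := hg
  rw [← ZMod.intCast_zmod_eq_zero_iff_dvd, ← coeff_H (R := ZMod p)]
  have hU : geo (9 : ZMod p) * ((1 - 9 * X : (ZMod p)[X]) : PowerSeries (ZMod p)) = 1 := by
    have e : ((1 - 9 * X : (ZMod p)[X]) : PowerSeries (ZMod p)) = 1 - PowerSeries.C 9 * PowerSeries.X := by
      rw [Polynomial.coe_sub, Polynomial.coe_mul, Polynomial.coe_X, Polynomial.coe_one,
        show (9 : (ZMod p)[X]) = C 9 from rfl, Polynomial.coe_C]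
    rw [e, geo_mul]
  obtain ⟨r, hr⟩ : ∃ r, p = c + 1 + r := Nat.exists_eq_add_of_lt hcp |>.imp fun r hr => by omega
  have hE : 22 * n + 1 + r = p * (C' + 1) := by rw [mul_add, mul_one]; omega
  set Φ : (ZMod p)[X] := (1 - X) ^ b * (1 - 9 * X) ^ r
    with hΦ
  set V : PowerSeries (ZMod p) := ((1 - X : (ZMod p)[X]) : PowerSeries (ZMod p)) ^ B *
    geo (9 : ZMod p) ^ (C' + 1) with hVdef
  have hG : H (ZMod p) n = V ^ p * (Φ : PowerSeries (ZMod p)) := by
    have e1 : geo (9 : ZMod p) ^ (22 * n + 1)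
        = geo (9 : ZMod p) ^ (p * (C' + 1)) * ((1 - 9 * X : (ZMod p)[X]) : PowerSeries (ZMod p)) ^ r := by
      rw [← hE, pow_add _ (22 * n + 1) r, mul_assoc, ← mul_pow, hU, one_pow, mul_one]
    have key : ∀ q u v : PowerSeries (ZMod p), q ^ (p * B + b) *
        (u ^ (p * (C' + 1)) * v ^ r) = (q ^ B * u ^ (C' + 1)) ^ p * (q ^ b * v ^ r) := by
      intro q u v; ring
    rw [H, Pv, e1, hB, hΦ, hVdef, Polynomial.coe_mul, Polynomial.coe_pow, Polynomial.coe_pow,
      Polynomial.coe_pow]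
    exact key _ _ _
  have hdeg : Φ.natDegree ≤ b + r := by
    rw [hΦ]
    refine (Polynomial.natDegree_mul_le).trans (add_le_add ?_ ?_)
    · have h2 : (1 - X : (ZMod p)[X]).natDegree ≤ 1 := by compute_degree
      refine (Polynomial.natDegree_pow_le).trans ?_
      calc _ ≤ b * 1 := by gcongr
        _ = b := by ring
    · have h2 : (1 - 9 * X : (ZMod p)[X]).natDegree ≤ 1 := by compute_degree
      refine (Polynomial.natDegree_pow_le).trans ?_
      calc _ ≤ r * 1 := by gcongr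
        _ = r := by ring
  rw [hG]
  apply sum_anti_zero p _ Φ _ (b + r) (fun i hi => coeff_pow_p p V i hi) hdeg
  intro j hj hij
  exfalso
  obtain ⟨i, ⟨i', hi⟩, hi2⟩ := hij
  obtain ⟨m', hm'⟩ := hm
  -- 2j + 1 + d is a positive multiple of p below 2p
  have h1 : 2 * j + 2 * (p * i') + p * m' + 1 = p * C' + c := by rw [← hi, ← hm', ← hC]; omega
  -- 14 n + d = p * E
  obtain ⟨E, hE2⟩ : ∃ E, 22 * n + d = p * E := by
    refine ⟨A + 2 * B - 2 * C', ?_⟩
    rw [Nat.mul_sub, mul_add]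
    have h1 : p * (2 * B) = 2 * (p * B) := by ring
    have h2 : p * (2 * C') = 2 * (p * C') := by ring
    rw [h1, h2]
    omega
  have h3 : 2 * j + 1 + d + p * (2 * i' + m') = p * E := by
    rw [← hE2, mul_add]
    have : p * (2 * i') = 2 * (p * i') := by ring
    rw [this]; omega
  have h4 : p ∣ 2 * j + 1 + d := by
    have : p ∣ 2 * j + 1 + d + p * (2 * i' + m') := by rw [h3]; exact dvd_mul_right _ _
    exact (Nat.dvd_add_left (dvd_mul_right _ _)).mp this
  have h5 : 2 * j + 1 + d < 2 * p := by omega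
  obtain ⟨q, hq⟩ := h4
  have hq1 : q = 1 := by
    have : 0 < q := by
      rcases Nat.eq_zero_or_pos q with h0 | h0
      · rw [h0] at hq; omega
      · exact h0
    have h6 : q < 2 := by
      by_contra hcon
      push Not at hcon
      have : p * 2 ≤ p * q := Nat.mul_le_mul_left _ hcon
      omega
    omega
  rw [hq1, mul_one] at hq
  rcases hcase with hodd | hpd
  · obtain ⟨t, ht⟩ := hodd
    have hpodd := hp.eq_two_or_odd'.resolve_left hp2
    obtain ⟨s, hs⟩ := hpodd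
    omega
  · omega

end Pool.Agent.H346R2.L2
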